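import Pool.Agent.H310R3.Inh.Defs
import Pool.Agent.H310R3.NA8
import Pool.Agent.H310R3.NA10

/-!
# INSHC without BPI and IDFBI: task statements

`L`, `IsModel`, `ITy`, `Int`, `IntF`, `IPow`, `INat`, `IFin` are from the internal types library
(Pool.Agent.Helper672.ZFA), `FinP` from Pool.Agent.H310R3.Gen, `Gd` from Pool.Agent.H310R3.NA1,
`IWO` from Pool.Agent.H310R3.NA8.
-/

set_option linter.all false

namespace Pool.Agent.H310R3.Inh

open FirstOrder FirstOrder.Language
open Pool.Agent.Helper672.ZFA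
open Pool.Agent.Helper672.ZFA.H635 (IWO)
open Pool.Agent.H310 (FinP Gd)
open Pool.Agent.H310NAS (IsCompactification INSHC NAS)
open Pool.Agent.H310Cards
open Pool.Agent.Helper672.Plain (LSet)

universe u

section

variable (M : Type u) [L.Structure M] [hM : IsModel M]

/-- There is an internal partial function from `σ` to `τ` with infinite range. -/
def Big (σ τ : Type u) [ITy M σ] [ITy M τ] : Prop :=
  ∃ R : σ × τ → Prop, Int M R ∧ (∀ a b b', R (a, b) → R (a, b') → b = b') ∧
    ¬ FinP M (fun b => ∃ a, R (a, b))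

/-- Internal dense linear orders without endpoints. -/
structure DLO (Q : Type u) [ITy M Q] (lt : Q → Q → Prop) : Prop where
  int : Int M (fun q : Q × Q => lt q.1 q.2)
  irrefl : ∀ a, ¬ lt a a
  trans : ∀ a b c, lt a b → lt b c → lt a c
  total : ∀ a b, lt a b ∨ a = b ∨ lt b a
  dense : ∀ a b, lt a b → ∃ c, lt a c ∧ lt c b
  noMin : ∀ a, ∃ b, lt b a
  noMax : ∀ a, ∃ b, lt a b
  ne : Nonempty Q

/-- Dense linear orders in which every internal sequence of sets has a finite support `c`:
membership of `p` only depends on the cut of `p` over `c`. -/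
structure QS (Q : Type u) [ITy M Q] (lt : Q → Q → Prop) : Prop extends DLO M Q lt where
  sup : ∀ R : Q × INat M → Prop, Int M R → ∃ c : IPow M Q, IFin c ∧ ∀ n p q, ¬ p ∈ c → ¬ q ∈ c →
    (∀ r, r ∈ c → (lt r p ↔ lt r q)) → (R (p, n) ↔ R (q, n))

/-- Internal compact Hausdorff topologies. -/
structure ICH (Y : Type u) [ITy M Y] (Op : IPow M (IPow M Y)) : Prop where
  univ : iuniv M Y ∈ Op
  inter : ∀ U V, U ∈ Op → V ∈ Op → U ∩ V ∈ Op
  union : ∀ G : IPow M (IPow M Y), (∀ U, U ∈ G → U ∈ Op) → isUnion G ∈ Op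
  compact : ∀ G : IPow M (IPow M Y), (∀ U, U ∈ G → U ∈ Op) → (∀ z, ∃ U, U ∈ G ∧ z ∈ U) →
    ∃ H : IPow M (IPow M Y), IFin H ∧ (∀ U, U ∈ H → U ∈ G) ∧ ∀ z, ∃ U, U ∈ H ∧ z ∈ U
  haus : ∀ a b, a ≠ b → ∃ U V, U ∈ Op ∧ V ∈ Op ∧ a ∈ U ∧ b ∈ V ∧ ∀ z, z ∈ U → ¬ z ∈ V

/-- There is a nonempty subspace without isolated points. -/
def NS (Y : Type u) [ITy M Y] (Op : IPow M (IPow M Y)) : Prop :=
  ∃ A : IPow M Y, (∃ z, z ∈ A) ∧ ∀ z U, z ∈ A → U ∈ Op → z ∈ U → ∃ y, y ∈ A ∧ y ∈ U ∧ y ≠ z

end

/-! ### Combinatorial tasks -/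

/-- Families of finite sets indexed by the natural numbers. -/
def TaskNat : Prop := ∀ (M : Type 1) [L.Structure M] [IsModel M] (σ : Type 1) [ITy M σ],
  ¬ Big M σ (INat M) → Gd M σ (fun _ : INat M => True)

/-- Families of finite sets indexed by a well-order. -/
def TaskWo : Prop := ∀ (M : Type 1) [L.Structure M] [IsModel M] (σ β : Type 1) [ITy M σ]
  [ITy M β] (lt : β → β → Prop), ¬ Big M σ (INat M) → IWO M β lt → Gd M σ (fun _ : β => True)

/-- Families of finite sets indexed by the finite subsets of a good type (compare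
`Amo.fs` in Pool.Agent.H310R3.NA1). -/
def TaskFs : Prop := ∀ (M : Type 1) [L.Structure M] [IsModel M] (σ β : Type 1) [ITy M σ]
  [ITy M β], Gd M σ (fun _ : INat M => True) → Gd M σ (fun _ : β => True) →
    Gd M σ (fun s : IPow M β => IFin s)

/-- Families of finite sets indexed by `Q`. -/
def TaskQ : Prop := ∀ (M : Type 1) [L.Structure M] [IsModel M] (σ Q : Type 1) [ITy M σ]
  [ITy M Q] (lt : Q → Q → Prop), QS M Q lt → ¬ Big M σ Q → Gd M σ (fun _ : Q => True)

/-- Infinite sets contain intervals. -/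
def TaskIntv : Prop := ∀ (M : Type 1) [L.Structure M] [IsModel M] (Q : Type 1) [ITy M Q]
  (lt : Q → Q → Prop), QS M Q lt → ∀ T : Q → Prop, Int M T → ¬ FinP M T →
    ∃ a b, lt a b ∧ ∀ q, lt a q → lt q b → T q

/-- The natural numbers map onto a dense linear order (for example the internal rational
numbers `IQ M` of Pool.Agent.H635R2.RealM and its imports, with the pairing function `pr` of
Pool.Agent.H310R3.Real). -/
def TaskEnum : Prop := ∀ (M : Type 1) [L.Structure M] [IsModel M],
  ∃ (Q : Type 1) (_ : ITy M Q) (lt : Q → Q → Prop), DLO M Q lt ∧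
    ∃ R : INat M × Q → Prop, Int M R ∧ (∀ a b b', R (a, b) → R (a, b') → b = b') ∧
      ∀ b, ∃ a, R (a, b)

/-- Infinite sets of natural numbers map onto the natural numbers. -/
def TaskRank : Prop := ∀ (M : Type 1) [L.Structure M] [IsModel M] (V : INat M → Prop),
  Int M V → ¬ FinP M V → ∃ r : INat M → INat M, IntF M r ∧ ∀ k, ∃ v, V v ∧ r v = k

/-! ### Topological tasks -/

/-- The space of the cuts of a dense linear order. -/
def TaskCuts : Prop := ∀ (M : Type 1) [L.Structure M] [IsModel M] (Q : Type 1) [ITy M Q]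
  (lt : Q → Q → Prop), DLO M Q lt → ∃ (Y : Type 1) (_ : ITy M Y) (Op : IPow M (IPow M Y))
    (j : Q → Y), IntF M j ∧ Function.Injective j ∧ ICH M Y Op ∧
      ∀ U, U ∈ Op → (∃ z, z ∈ U) → ¬ FinP M (fun l => j l ∈ U)

/-- A compactification from a map to a compact space: the type `α ⊕ Y`, the points of `α` are
isolated, and the neighbourhoods of `y` in `Y` contain `U` and almost all of the preimage of `U`
for a neighbourhood `U` of `y` in `Y`. -/
def TaskGlue : Prop := ∀ (M : Type 1) [L.Structure M] [IsModel M] (α Y : Type 1) [ITy M α]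
  [ITy M Y] (Op : IPow M (IPow M Y)) (p : α → Y), ICH M Y Op → NS M Y Op → IntF M p →
    (∀ U, U ∈ Op → (∃ z, z ∈ U) → ¬ FinP M (fun a => p a ∈ U)) →
    ∃ (K : Type 1) (_ : ITy M K) (Op' : IPow M (IPow M K)) (f : α → K), IntF M f ∧
      Function.Injective f ∧ ICH M K Op' ∧ NS M K Op' ∧
      (∀ a, ∃ U, U ∈ Op' ∧ ∀ z, z ∈ U ↔ z = f a) ∧
      ∀ U, U ∈ Op' → (∃ z, z ∈ U) → ∃ a, f a ∈ U

/-- The remainder of a Hausdorff compactification of `Q` contains no infinite sequence. (Sketch: for
`n` let `I n` be the set of the `p` such that some neighbourhood of `j n` has no point `f q` with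
`q < p`. If `I n` is neither empty nor everything, it has a supremum `s n`, and either all
neighbourhoods of `j n` contain all `f q` with `q` in some interval `(s n, r)`, or the same holds on
the left. As the space is Hausdorff, each point is `s n` for at most two `n`, and by `QS.sup` the
set of the `s n` is finite.) -/
def TaskSeq : Prop := ∀ (M : Type 1) [L.Structure M] [IsModel M] (Q Y : Type 1) [ITy M Q]
  [ITy M Y] (lt : Q → Q → Prop) (Op : IPow M (IPow M Y)) (f : Q → Y) (j : INat M → Y), QS M Q lt →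
    ICH M Y Op → IntF M f → Function.Injective f →
    (∀ a, ∃ U, U ∈ Op ∧ f a ∈ U ∧ ∀ b, f b ∈ U → b = a) →
    (∀ U, U ∈ Op → (∃ z, z ∈ U) → ∃ a, f a ∈ U) → IntF M j → Function.Injective j →
    (∀ n a, j n ≠ f a) → False

section

attribute [local instance] Helper672.Plain.toL

local instance instModelInh {M : Type u} [LSet.Structure M] [Helper672.Plain.Zermelo M] :
    IsModel M := Helper672.Plain.isModel_toL

/-- From internal spaces to spaces in the model (compare Pool.Agent.H310R3.W8 and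
Pool.Agent.H310R3.Bridge). -/
def TaskBridge : Prop := ∀ (N : Type 1) [LSet.Structure N] [Helper672.Plain.Zermelo N] (d : N)
  (K : Type 1) [ITy N K] (Op : IPow N (IPow N K)) (f : Helper672.ZFA.El d → K), IntF N f →
    Function.Injective f → ICH N K Op → NS N K Op →
    (∀ a, ∃ U, U ∈ Op ∧ ∀ z, z ∈ U ↔ z = f a) →
    (∀ U, U ∈ Op → (∃ z, z ∈ U) → ∃ a, f a ∈ U) →
    ∃ x t, IsCompactification d x t ∧ ¬ H310Top.IsScattered t x

/-- BPI gives choice sets for involutions without fixed points (use the regular open algebra of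
the poset of the finite subsets of `α` that do not contain both `a` and `i a`). -/
def TaskBPI : Prop := ∀ (N : Type 1) [LSet.Structure N] [Helper672.Plain.Zermelo N], BPI N →
  ∀ (α : Type 1) [ITy N α] (i : α → α), IntF N i → (∀ a, i (i a) = a) → (∀ a, i a ≠ a) →
    ∃ Y : α → Prop, Int N Y ∧ ∀ a, (Y a ↔ ¬ Y (i a))

/-- The Cantor cube is no remainder of `d`. -/
def TaskIDF : Prop := TaskSeq → ∀ (N : Type 1) [LSet.Structure N] [Helper672.Plain.Zermelo N] (d : N)
  (lt : Helper672.ZFA.El d → Helper672.ZFA.El d → Prop), QS N (Helper672.ZFA.El d) lt → ¬ IDFBI N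

/-! ### The model -/

/-- What is used of the model. -/
structure MD (N : Type 1) [LSet.Structure N] [Helper672.Plain.Zermelo N] (A d : N)
    (lt : Helper672.ZFA.El d → Helper672.ZFA.El d → Prop) (pr : Helper672.ZFA.El A → Helper672.ZFA.El d) (i : Helper672.ZFA.El A → Helper672.ZFA.El A) :
    Prop where
  qs : QS N (Helper672.ZFA.El d) lt
  int_pr : IntF N pr
  int_i : IntF N i
  ii : ∀ a, i (i a) = a
  ne : ∀ a, i a ≠ a
  fib : ∀ a b, pr a = pr b → a = b ∨ a = i b
  noc : ∀ Y : Helper672.ZFA.El A → Prop, Int N Y → ∃ a, (Y a ↔ Y (i a))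
  cover : ∀ x : N, (∀ (β : Type 1) [ITy N β] (lt' : β → β → Prop), IWO N β lt' →
    Gd N (Helper672.ZFA.El x) (fun _ : β => True)) →
      Gd N (Helper672.ZFA.El x) (fun s : IPow N (Helper672.ZFA.El A) => IFin s) →
        FinP N (fun _ : Helper672.ZFA.El x => True)

end

end Pool.Agent.H310R3.Inh
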