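import Pool.Agent.H310R3.Inh.Stmts

/-!
# INSHC without BPI and IDFBI: assembly
-/

set_option linter.all false

namespace Pool.Agent.H310R3.Inh

open FirstOrder FirstOrder.Language
open Pool.Agent.Helper672.ZFA
open Pool.Agent.Helper672.ZFA.H635 (IWO)
open Pool.Agent.H310 (FinP Gd not_finP finP_of_finite mem_El finP_iff)
open Pool.Agent.H310NAS (IsCompactification INSHC NAS)
open Pool.Agent.H310Cards
open Pool.Agent.Helper672.Plain (LSet)
open Pool.Agent.H635Amen (ZF)

theorem Gd.bU {M : Type 1} [L.Structure M] [IsModel M] {σ β γ : Type 1} [ITy M σ] [ITy M β]
    [ITy M γ] (hP : Gd M σ (fun _ : β => True)) {R : β × γ → Prop} (hR : Int M R)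
    (h : ∀ b, Gd M σ (fun c => R (b, c))) (hc : ∀ c, ∃ b, R (b, c)) :
    Gd M σ (fun _ : γ => True) := by
  have h1 := hP.bUnion hR fun b _ => h b
  exact h1.mono (Int.const _) fun c _ => (hc c).imp fun b hb => ⟨trivial, hb⟩

/-- Big types map partially onto a dense linear order. -/
theorem exists_onto {M : Type 1} [L.Structure M] [IsModel M] {σ Q : Type 1} [ITy M σ] [ITy M Q]
    {lt : Q → Q → Prop} (hE : TaskEnum) (hR : TaskRank) (hI : TaskIntv) (hQ : QS M Q lt)
    (h : Big M σ (INat M) ∨ Big M σ Q) : ∃ (Q' : Type 1) (_ : ITy M Q') (lt' : Q' → Q' → Prop),
      DLO M Q' lt' ∧ ∃ R : σ × Q' → Prop, Int M R ∧ (∀ a b b', R (a, b) → R (a, b') → b = b') ∧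
        ∀ b, ∃ a, R (a, b) := by
  rcases h with ⟨R, h1, h2, h3⟩ | ⟨R, h1, h2, h3⟩
  · obtain ⟨Q', i, lt', h4, R', h5, h6, h7⟩ := hE M
    have hV : Int M (fun b => ∃ a, R (a, b)) := by
      (repeat' (first | with_reducible exact IntF.id | with_reducible exact IntF.fst' | with_reducible exact IntF.snd' | with_reducible exact IntF.const _ | with_reducible exact Int.const _ | assumption | with_reducible apply Int.and | with_reducible apply Int.or | with_reducible apply Int.not | with_reducible apply Int.imp | with_reducible apply Int.iff | with_reducible apply Int.ne | with_reducible apply Int.eq | with_reducible apply Int.mem | with_reducible apply Int.subset | with_reducible apply Int.ltN | with_reducible apply Int.leN | with_reducible_and_instances apply Int.le | with_reducible_and_instances apply Int.lt | with_reducible apply Int.all | with_reducible apply Int.ex | with_reducible apply IntF.fst | with_reducible apply IntF.snd | with_reducible apply IntF.app | with_reducible apply IntF.inl | with_reducible apply IntF.inr | with_reducible_and_instances apply IntF.mul | with_reducible_and_instances apply IntF.inv | with_reducible_and_instances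 apply IntF.add | with_reducible_and_instances apply IntF.sub | with_reducible_and_instances apply IntF.neg | with_reducible_and_instances apply IntF.smul | with_reducible apply Int.fin | with_reducible apply IntF.sep | with_reducible apply IntF.lam | with_reducible apply IntF.insert | with_reducible apply IntF.singleton | with_reducible apply IntF.union | with_reducible apply IntF.iimage | with_reducible apply IntF.ite | with_reducible apply IntF.the | with_reducible apply IntF.irec | with_reducible apply IntF.succ | with_reducible apply IntF.val | with_reducible apply IntF.mk | (with_reducible refine Int.comp ?_ ?_; assumption) | (with_reducible refine Int.comp₂ ?_ ?_ ?_; assumption) | (with_reducible refine Int.comp₃ ?_ ?_ ?_ ?_; assumption) | (with_reducible refine Int.comp₄ ?_ ?_ ?_ ?_ ?_; assumption) | (with_reducible refine IntF.comp ?_ ?_; assumption) | (with_reducible refine IntF.comp₂ ?_ ?_ ?_; assumption) | (with_reducible refine IntF.comp₃ ?_ ?_ ?_ ?_; assumption) | with_reducible apply IntF.pair))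
    obtain ⟨r, h8, h9⟩ := hR M _ hV h3
    refine ⟨Q', i, lt', h4, fun q => ∃ n, R (q.1, n) ∧ R' (r n, q.2), ?_, ?_, ?_⟩
    · (repeat' (first | with_reducible exact IntF.id | with_reducible exact IntF.fst' | with_reducible exact IntF.snd' | with_reducible exact IntF.const _ | with_reducible exact Int.const _ | assumption | with_reducible apply Int.and | with_reducible apply Int.or | with_reducible apply Int.not | with_reducible apply Int.imp | with_reducible apply Int.iff | with_reducible apply Int.ne | with_reducible apply Int.eq | with_reducible apply Int.mem | with_reducible apply Int.subset | with_reducible apply Int.ltN | with_reducible apply Int.leN | with_reducible_and_instances apply Int.le | with_reducible_and_instances apply Int.lt | with_reducible apply Int.all | with_reducible apply Int.ex | with_reducible apply IntF.fst | with_reducible apply IntF.snd | with_reducible apply IntF.app | with_reducible apply IntF.inl | with_reducible apply IntF.inr | with_reducible_and_instances apply IntF.mul | with_reducible_and_instances apply IntF.inv | with_reducible_and_instances apply IntF.add | with_reducible_and_instances apply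 IntF.sub | with_reducible_and_instances apply IntF.neg | with_reducible_and_instances apply IntF.smul | with_reducible apply Int.fin | with_reducible apply IntF.sep | with_reducible apply IntF.lam | with_reducible apply IntF.insert | with_reducible apply IntF.singleton | with_reducible apply IntF.union | with_reducible apply IntF.iimage | with_reducible apply IntF.ite | with_reducible apply IntF.the | with_reducible apply IntF.irec | with_reducible apply IntF.succ | with_reducible apply IntF.val | with_reducible apply IntF.mk | (with_reducible refine Int.comp ?_ ?_; assumption) | (with_reducible refine Int.comp₂ ?_ ?_ ?_; assumption) | (with_reducible refine Int.comp₃ ?_ ?_ ?_ ?_; assumption) | (with_reducible refine Int.comp₄ ?_ ?_ ?_ ?_ ?_; assumption) | (with_reducible refine IntF.comp ?_ ?_; assumption) | (with_reducible refine IntF.comp₂ ?_ ?_ ?_; assumption) | (with_reducible refine IntF.comp₃ ?_ ?_ ?_ ?_; assumption) | with_reducible apply IntF.pair))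
    · rintro a b b' ⟨n, k1, k2⟩ ⟨n', k3, k4⟩
      rw [h2 a n n' k1 k3] at k2
      exact h6 _ _ _ k2 k4
    · intro b
      obtain ⟨k, hk⟩ := h7 b
      obtain ⟨n, ⟨a, ha⟩, rfl⟩ := h9 k
      exact ⟨a, n, ha, hk⟩
  · have hV : Int M (fun b => ∃ a, R (a, b)) := by
      (repeat' (first | with_reducible exact IntF.id | with_reducible exact IntF.fst' | with_reducible exact IntF.snd' | with_reducible exact IntF.const _ | with_reducible exact Int.const _ | assumption | with_reducible apply Int.and | with_reducible apply Int.or | with_reducible apply Int.not | with_reducible apply Int.imp | with_reducible apply Int.iff | with_reducible apply Int.ne | with_reducible apply Int.eq | with_reducible apply Int.mem | with_reducible apply Int.subset | with_reducible apply Int.ltN | with_reducible apply Int.leN | with_reducible_and_instances apply Int.le | with_reducible_and_instances apply Int.lt | with_reducible apply Int.all | with_reducible apply Int.ex | with_reducible apply IntF.fst | with_reducible apply IntF.snd | with_reducible apply IntF.app | with_reducible apply IntF.inl | with_reducible apply IntF.inr | with_reducible_and_instances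 apply IntF.mul | with_reducible_and_instances apply IntF.inv | with_reducible_and_instances apply IntF.add | with_reducible_and_instances apply IntF.sub | with_reducible_and_instances apply IntF.neg | with_reducible_and_instances apply IntF.smul | with_reducible apply Int.fin | with_reducible apply IntF.sep | with_reducible apply IntF.lam | with_reducible apply IntF.insert | with_reducible apply IntF.singleton | with_reducible apply IntF.union | with_reducible apply IntF.iimage | with_reducible apply IntF.ite | with_reducible apply IntF.the | with_reducible apply IntF.irec | with_reducible apply IntF.succ | with_reducible apply IntF.val | with_reducible apply IntF.mk | (with_reducible refine Int.comp ?_ ?_; assumption) | (with_reducible refine Int.comp₂ ?_ ?_ ?_; assumption) | (with_reducible refine Int.comp₃ ?_ ?_ ?_ ?_; assumption) | (with_reducible refine Int.comp₄ ?_ ?_ ?_ ?_ ?_; assumption) | (with_reducible refine IntF.comp ?_ ?_; assumption) | (with_reducible refine IntF.comp₂ ?_ ?_ ?_; assumption) | (with_reducible refine IntF.comp₃ ?_ ?_ ?_ ?_; assumption) | with_reducible apply IntF.pair))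
    obtain ⟨a, b, hab, h4⟩ := hI M Q lt hQ _ hV h3
    have hlt := hQ.int
    have hlt' : Int M (fun q : Q × Q => lt q.1 q.2) := hlt
    have hS : Int M (fun q => lt a q ∧ lt q b) := by
      (repeat' (first | with_reducible exact IntF.id | with_reducible exact IntF.fst' | with_reducible exact IntF.snd' | with_reducible exact IntF.const _ | with_reducible exact Int.const _ | assumption | with_reducible apply Int.and | with_reducible apply Int.or | with_reducible apply Int.not | with_reducible apply Int.imp | with_reducible apply Int.iff | with_reducible apply Int.ne | with_reducible apply Int.eq | with_reducible apply Int.mem | with_reducible apply Int.subset | with_reducible apply Int.ltN | with_reducible apply Int.leN | with_reducible_and_instances apply Int.le | with_reducible_and_instances apply Int.lt | with_reducible apply Int.all | with_reducible apply Int.ex | with_reducible apply IntF.fst | with_reducible apply IntF.snd | with_reducible apply IntF.app | with_reducible apply IntF.inl | with_reducible apply IntF.inr | with_reducible_and_instances apply IntF.mul | with_reducible_and_instances apply IntF.inv | with_reducible_and_instances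 apply IntF.add | with_reducible_and_instances apply IntF.sub | with_reducible_and_instances apply IntF.neg | with_reducible_and_instances apply IntF.smul | with_reducible apply Int.fin | with_reducible apply IntF.sep | with_reducible apply IntF.lam | with_reducible apply IntF.insert | with_reducible apply IntF.singleton | with_reducible apply IntF.union | with_reducible apply IntF.iimage | with_reducible apply IntF.ite | with_reducible apply IntF.the | with_reducible apply IntF.irec | with_reducible apply IntF.succ | with_reducible apply IntF.val | with_reducible apply IntF.mk | (with_reducible refine Int.comp ?_ ?_; assumption) | (with_reducible refine Int.comp₂ ?_ ?_ ?_; assumption) | (with_reducible refine Int.comp₃ ?_ ?_ ?_ ?_; assumption) | (with_reducible refine Int.comp₄ ?_ ?_ ?_ ?_ ?_; assumption) | (with_reducible refine IntF.comp ?_ ?_; assumption) | (with_reducible refine IntF.comp₂ ?_ ?_ ?_; assumption) | (with_reducible refine IntF.comp₃ ?_ ?_ ?_ ?_; assumption) | with_reducible apply IntF.pair))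
    letI : Fact (Int M (fun q => lt a q ∧ lt q b)) := ⟨hS⟩
    refine ⟨{q : Q // lt a q ∧ lt q b}, inferInstance, fun x y => lt x.1 y.1, ?_,
      fun w => R (w.1, w.2.1), ?_, ?_, ?_⟩
    · refine ⟨?_, fun x => hQ.irrefl _, fun x y z => hQ.trans _ _ _, fun x y => ?_, fun x y h => ?_,
        fun x => ?_, fun x => ?_, ?_⟩
      · exact Int.comp₂ (p := fun x y => lt x y) hlt' (IntF.val IntF.fst') (IntF.val IntF.snd')
      · rcases hQ.total x.1 y.1 with h | h | h
        · exact Or.inl h
        · exact Or.inr (Or.inl (Subtype.ext h))
        · exact Or.inr (Or.inr h)
      · obtain ⟨c, h5, h6⟩ := hQ.dense _ _ h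
        exact ⟨⟨c, hQ.trans _ _ _ x.2.1 h5, hQ.trans _ _ _ h6 y.2.2⟩, h5, h6⟩
      · obtain ⟨c, h5, h6⟩ := hQ.dense _ _ x.2.1
        exact ⟨⟨c, h5, hQ.trans _ _ _ h6 x.2.2⟩, h6⟩
      · obtain ⟨c, h5, h6⟩ := hQ.dense _ _ x.2.2
        exact ⟨⟨c, hQ.trans _ _ _ x.2.1 h5, h6⟩, h5⟩
      · obtain ⟨c, h5, h6⟩ := hQ.dense _ _ hab
        exact ⟨⟨c, h5, h6⟩⟩
    · exact Int.comp h1 (IntF.pair IntF.fst' (IntF.val IntF.snd'))
    · intro x y y' h5 h6
      exact Subtype.ext (h2 _ _ _ h5 h6)
    · intro y
      exact h4 y.1 y.2.1 y.2.2

/-- From a partial map onto a dense linear order to a compactification. -/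
theorem exists_comp {M : Type 1} [L.Structure M] [IsModel M] {σ Q : Type 1} [ITy M σ] [ITy M Q]
    {lt : Q → Q → Prop} (hC : TaskCuts) (hG : TaskGlue) (hQ : DLO M Q lt) {R : σ × Q → Prop}
    (h1 : Int M R) (h2 : ∀ a b b', R (a, b) → R (a, b') → b = b') (h3 : ∀ b, ∃ a, R (a, b)) :
    ∃ (K : Type 1) (_ : ITy M K) (Op' : IPow M (IPow M K)) (f : σ → K), IntF M f ∧
      Function.Injective f ∧ ICH M K Op' ∧ NS M K Op' ∧
      (∀ a, ∃ U, U ∈ Op' ∧ ∀ z, z ∈ U ↔ z = f a) ∧
      ∀ U, U ∈ Op' → (∃ z, z ∈ U) → ∃ a, f a ∈ U := by
  obtain ⟨Y, i, Op, j, h4, h5, h6, h7⟩ := hC M Q lt hQ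
  obtain ⟨q₀⟩ := hQ.ne
  have hp : IntF M (fun a : σ => j (the (fun b => R (a, b)) q₀)) := by
    refine IntF.comp h4 (IntF.the ?_ (IntF.const _))
    exact h1
  have hp' : ∀ a b, R (a, b) → the (fun b => R (a, b)) q₀ = b := fun a b hab =>
    the_eq ⟨b, hab, fun b' hb' => h2 _ _ _ hb' hab⟩ hab
  refine hG M σ Y Op _ h6 ?_ hp fun U hU hne hfin => ?_
  · refine ⟨iuniv M Y, ⟨j q₀, by simp⟩, fun z U _ hU hz => ?_⟩
    by_contra hcon
    push Not at hcon
    refine h7 U hU ⟨z, hz⟩ ?_
    by_cases hj : ∃ l, j l = z
    · obtain ⟨l, rfl⟩ := hj
      refine (FinP.eq l).mono fun l' hl' => ?_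
      exact h5 (hcon _ (by simp) hl')
    · exact ⟨∅, IFin.empty, fun l hl => absurd ⟨l, hcon _ (by simp) hl⟩ hj⟩
  · refine h7 U hU hne ?_
    have hf : IntF M (fun a : σ => the (fun b => R (a, b)) q₀) := IntF.the h1 (IntF.const _)
    have h8 : FinP M (fun b => ∃ a, j (the (fun b => R (a, b)) q₀) ∈ U ∧
        the (fun b => R (a, b)) q₀ = b) := hfin.image hf
    refine h8.mono fun l hl => ?_
    obtain ⟨a, ha⟩ := h3 l
    exact ⟨a, by rwa [hp' a l ha], hp' a l ha⟩

section

attribute [local instance] Helper672.Plain.toL

local instance instModelInh' {M : Type*} [LSet.Structure M] [Helper672.Plain.Zermelo M] :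
    IsModel M := Helper672.Plain.isModel_toL

theorem final' (N : Type 1) [LSet.Structure N] [Helper672.Plain.Zermelo N] {A d : N}
    {lt : Helper672.ZFA.El d → Helper672.ZFA.El d → Prop}
    {pr : Helper672.ZFA.El A → Helper672.ZFA.El d} {i : Helper672.ZFA.El A → Helper672.ZFA.El A}
    (hM : MD N A d lt pr i)
    (tNat : TaskNat) (tWo : TaskWo) (tFs : TaskFs) (tQ : TaskQ) (tIntv : TaskIntv)
    (tEnum : TaskEnum) (tRank : TaskRank) (tCuts : TaskCuts) (tGlue : TaskGlue) (tSeq : TaskSeq)
    (tBridge : TaskBridge) (tBPI : TaskBPI) (tIDF : TaskIDF) :
    INSHC N ∧ ¬ BPI N ∧ ¬ IDFBI N := by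
  refine ⟨fun x hx => ?_, fun hB => ?_, tIDF tSeq N d lt hM.qs⟩
  · have hinf := not_finP (α := Helper672.ZFA.El x) (a := x) (fun z => mem_El) hx
    have hbig : Big N (Helper672.ZFA.El x) (INat N) ∨
        Big N (Helper672.ZFA.El x) (Helper672.ZFA.El d) := by
      by_contra hcon
      push Not at hcon
      obtain ⟨c1, c2⟩ := hcon
      refine hinf (hM.cover x (fun β _ lt' h => tWo N _ β lt' c1 h) ?_)
      refine tFs N _ _ (tNat N _ c1) ?_
      have hq := tQ N _ _ lt hM.qs c2
      have hpr := hM.int_pr
      refine Gd.bU (R := fun q : Helper672.ZFA.El d × Helper672.ZFA.El A => pr q.2 = q.1) hq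
        (by (repeat' (first | with_reducible exact IntF.id | with_reducible exact IntF.fst' | with_reducible exact IntF.snd' | with_reducible exact IntF.const _ | with_reducible exact Int.const _ | assumption | with_reducible apply Int.and | with_reducible apply Int.or | with_reducible apply Int.not | with_reducible apply Int.imp | with_reducible apply Int.iff | with_reducible apply Int.ne | with_reducible apply Int.eq | with_reducible apply Int.mem | with_reducible apply Int.subset | with_reducible apply Int.ltN | with_reducible apply Int.leN | with_reducible_and_instances apply Int.le | with_reducible_and_instances apply Int.lt | with_reducible apply Int.all | with_reducible apply Int.ex | with_reducible apply IntF.fst | with_reducible apply IntF.snd | with_reducible apply IntF.app | with_reducible apply IntF.inl | with_reducible apply IntF.inr | with_reducible_and_instances apply IntF.mul | with_reducible_and_instances apply IntF.inv | with_reducible_and_instances apply IntF.add | with_reducible_and_instances apply IntF.sub | with_reducible_and_instances apply IntF.neg | with_reducible_and_instances apply IntF.smul | with_reducible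 apply Int.fin | with_reducible apply IntF.sep | with_reducible apply IntF.lam | with_reducible apply IntF.insert | with_reducible apply IntF.singleton | with_reducible apply IntF.union | with_reducible apply IntF.iimage | with_reducible apply IntF.ite | with_reducible apply IntF.the | with_reducible apply IntF.irec | with_reducible apply IntF.succ | with_reducible apply IntF.val | with_reducible apply IntF.mk | (with_reducible refine Int.comp ?_ ?_; assumption) | (with_reducible refine Int.comp₂ ?_ ?_ ?_; assumption) | (with_reducible refine Int.comp₃ ?_ ?_ ?_ ?_; assumption) | (with_reducible refine Int.comp₄ ?_ ?_ ?_ ?_ ?_; assumption) | (with_reducible refine IntF.comp ?_ ?_; assumption) | (with_reducible refine IntF.comp₂ ?_ ?_ ?_; assumption) | (with_reducible refine IntF.comp₃ ?_ ?_ ?_ ?_; assumption) | with_reducible apply IntF.pair))) (fun b => ?_) fun c => ⟨pr c, rfl⟩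
      have hI : Int N (fun a : Helper672.ZFA.El A => pr a = b) := by (repeat' (first | with_reducible exact IntF.id | with_reducible exact IntF.fst' | with_reducible exact IntF.snd' | with_reducible exact IntF.const _ | with_reducible exact Int.const _ | assumption | with_reducible apply Int.and | with_reducible apply Int.or | with_reducible apply Int.not | with_reducible apply Int.imp | with_reducible apply Int.iff | with_reducible apply Int.ne | with_reducible apply Int.eq | with_reducible apply Int.mem | with_reducible apply Int.subset | with_reducible apply Int.ltN | with_reducible apply Int.leN | with_reducible_and_instances apply Int.le | with_reducible_and_instances apply Int.lt | with_reducible apply Int.all | with_reducible apply Int.ex | with_reducible apply IntF.fst | with_reducible apply IntF.snd | with_reducible apply IntF.app | with_reducible apply IntF.inl | with_reducible apply IntF.inr | with_reducible_and_instances apply IntF.mul | with_reducible_and_instances apply IntF.inv | with_reducible_and_instances apply IntF.add | with_reducible_and_instances apply IntF.sub | with_reducible_and_instances apply IntF.neg |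 with_reducible_and_instances apply IntF.smul | with_reducible apply Int.fin | with_reducible apply IntF.sep | with_reducible apply IntF.lam | with_reducible apply IntF.insert | with_reducible apply IntF.singleton | with_reducible apply IntF.union | with_reducible apply IntF.iimage | with_reducible apply IntF.ite | with_reducible apply IntF.the | with_reducible apply IntF.irec | with_reducible apply IntF.succ | with_reducible apply IntF.val | with_reducible apply IntF.mk | (with_reducible refine Int.comp ?_ ?_; assumption) | (with_reducible refine Int.comp₂ ?_ ?_ ?_; assumption) | (with_reducible refine Int.comp₃ ?_ ?_ ?_ ?_; assumption) | (with_reducible refine Int.comp₄ ?_ ?_ ?_ ?_ ?_; assumption) | (with_reducible refine IntF.comp ?_ ?_; assumption) | (with_reducible refine IntF.comp₂ ?_ ?_ ?_; assumption) | (with_reducible refine IntF.comp₃ ?_ ?_ ?_ ?_; assumption) | with_reducible apply IntF.pair))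
      by_cases hb : ∃ a, pr a = b
      · obtain ⟨a, rfl⟩ := hb
        refine ((Gd.eq a).or (Gd.eq (i a))).mono hI fun a' ha' => ?_
        rcases hM.fib a a' ha'.symm with h | h
        · exact Or.inl h.symm
        · refine Or.inr ?_
          rw [h, hM.ii]
      · exact fun W _ _ => ⟨∅, IFin.empty, fun s ⟨a, ha, _⟩ => absurd ⟨a, ha⟩ hb⟩
    obtain ⟨Q', _, lt', h4, R, h5, h6, h7⟩ := exists_onto tEnum tRank tIntv hM.qs hbig
    obtain ⟨K, _, Op', f, k1, k2, k3, k4, k5, k6⟩ := exists_comp tCuts tGlue h4 h5 h6 h7
    exact tBridge N x K Op' f k1 k2 k3 k4 k5 k6
  · obtain ⟨Y, h1, h2⟩ := tBPI N hB _ i hM.int_i hM.ii hM.ne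
    obtain ⟨a, ha⟩ := hM.noc Y h1
    have h3 := h2 a
    tauto

end

end Pool.Agent.H310R3.Inh
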