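import Pool.Agent.H310R3.NADefs

/-!
# BPI and IDFBI in a model of ZF: definitions
-/

namespace Pool.Agent.H310R3.Inh

open FirstOrder FirstOrder.Language
open Pool.Agent.Helper672.Plain (LSet Mem El)
open Pool.Agent.H310Cards
open Pool.Agent.H310Top

universe u

section

variable {M : Type u} [LSet.Structure M]

/-- `i` is a prime ideal of the Boolean algebra on `b`. -/
structure IsPrimeIdeal {b : M} [BooleanAlgebra (El b)] (i : M) : Prop where
  sub : ∀ z, Mem z i → Mem z b
  bot : Mem (⊥ : El b).1 i
  top : ¬ Mem (⊤ : El b).1 i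
  down : ∀ x y : El b, Mem y.1 i → x ≤ y → Mem x.1 i
  sup : ∀ x y : El b, Mem x.1 i → Mem y.1 i → Mem (x ⊔ y).1 i
  prime : ∀ x y : El b, Mem (x ⊓ y).1 i → Mem x.1 i ∨ Mem y.1 i

/-- The space `x` with the topology `t` is, with the embedding `f`, a Hausdorff compactification of
the discrete space on `d`. -/
structure IsCompVia (f d x t : M) : Prop where
  top : IsTopology t x
  compact : IsCompact t x
  haus : IsHausdorff t x
  inj : IsInj f d x
  disc : ∀ a y, App f a y → ∃ u, Mem u t ∧ Mem y u ∧ ∀ b z, App f b z → Mem z u → z = y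
  dense : ∀ u, Mem u t → (∃ z, Mem z u) → ∃ a y, App f a y ∧ Mem y u

/-- `v` is open in the Cantor cube, represented by the power set of the set `w` of the natural
numbers: with every `s` it contains all subsets of `w` that agree with `s` below some natural
number. -/
def IsCantorOpen (w v : M) : Prop :=
  (∀ s, Mem s v → ∀ z, Mem z s → Mem z w) ∧
    ∀ s, Mem s v → ∃ n, Mem n w ∧ ∀ s', (∀ z, Mem z s' → Mem z w) →
      (∀ m, Mem m n → (Mem m s' ↔ Mem m s)) → Mem s' v

/-- `h` is a homeomorphism of the subspace `r` of the space with the topology `t` to the Cantor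
cube (the power set `p` of the set `w` of the natural numbers). -/
structure IsHomeoCantor (h r t w p : M) : Prop where
  bij : IsBij h r p
  open_iff : ∀ v v', (∀ z, Mem z v → Mem z r) → (∀ s, Mem s v' ↔ ∃ y, Mem y v ∧ App h y s) →
    ((∃ u, Mem u t ∧ ∀ z, Mem z v ↔ Mem z u ∧ Mem z r) ↔ IsCantorOpen w v')

end

/-- BPI: every (nontrivial) Boolean algebra has a prime ideal. -/
def BPI (N : Type u) [LSet.Structure N] : Prop :=
  ∀ (b r : N) (_ : BooleanAlgebra (El b)), Nontrivial (El b) →
    (∀ x y : El b, x ≤ y ↔ App r x.1 y.1) → ∃ i, IsPrimeIdeal (b := b) i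

/-- IDFBI: for every infinite set `d`, the Cantor cube is a remainder of the discrete space
on `d`. -/
def IDFBI (N : Type u) [LSet.Structure N] : Prop :=
  ∀ d : N, ¬ IsFinite d → ∃ x t f r h w p : N, IsCompVia f d x t ∧
    (∀ z, Mem z r ↔ Mem z x ∧ ¬ ∃ a, App f a z) ∧ IsOmega w ∧ IsPow p w ∧
    IsHomeoCantor h r t w p

end Pool.Agent.H310R3.Inh
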